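import Pool.Agent.H80.SF1

open Pool.Agent.H80.SF

theorem Pool.Agent.Results.MP_cb4cd2_al.ForestSLP.result (K : Type) [Field K] [CharZero K] (n : ℕ)
    (Δ : Set (Finset (Fin n))) (hΔ : IsLowerSet Δ) (hp : IsPure Δ) (hf : IsForest Δ) (i j : ℕ) :
    FullRank (idealA K Δ) ((∑ v, MvPolynomial.X v) ^ j) i (i + j) :=
  slp Δ hΔ hp hf i j
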